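import Pool.Agent.H18.GZ.Targets3

/-!
Summation by parts (row ABS of the board gz).
-/

namespace Pool.Agent.H36.GZ

open MeasureTheory Pool.Agent.H34.GM Pool.Agent.H34.GZ

/-- the coefficients -/
private noncomputable def cf (m q : ℕ) (lam : ℕ → ℂ) (n : ℕ) : ℂ :=
  if 1 ≤ n ∧ n.Coprime q then (n : ℂ) ^ (((m : ℂ) - 1) / 2) * lam n else 0

private lemma cf_zero (m q : ℕ) (lam : ℕ → ℂ) : cf m q lam 0 = 0 := by
  unfold cf
  rw [if_neg (by omega)]

private lemma sum_cf (m q : ℕ) (lam : ℕ → ℂ) (y : ℝ) :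
    ∑ k ∈ Finset.Icc 0 ⌊y⌋₊, cf m q lam k = SF m q lam y := by
  rw [Finset.Icc_eq_cons_Ioc (Nat.zero_le _), Finset.sum_cons, cf_zero, zero_add]
  unfold SF
  refine Finset.sum_congr (by ext n; simp [Nat.succ_le_iff]) fun n hn => ?_
  have hn1 : 1 ≤ n := (Finset.mem_Icc.1 hn).1
  unfold cf
  by_cases h : n.Coprime q
  · rw [if_pos ⟨hn1, h⟩, if_pos h]
  · rw [if_neg (fun h' => h h'.2), if_neg h]

/-- the argument -/
private noncomputable def ag (m : ℕ) (r y : ℝ) : ℝ := r * y ^ (-(1 / (m : ℝ)))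

private lemma ag_pos {m : ℕ} {r y : ℝ} (hr : 0 < r) (hy : 0 < y) : 0 < ag m r y :=
  mul_pos hr (Real.rpow_pos_of_pos hy _)

private lemma ag_pow {m K : ℕ} (hm : 1 ≤ m) (hK : m * (m + 2) < K) {r y : ℝ} (hr : 0 < r)
    (hy : 1 ≤ y) : ag m r y ^ K ≤ r ^ K * (y ^ (m + 2))⁻¹ := by
  have hm0 : (0 : ℝ) < m := by exact_mod_cast hm
  have hy0 : 0 < y := by linarith
  unfold ag
  rw [mul_pow]
  refine mul_le_mul_of_nonneg_left ?_ (pow_nonneg hr.le _)
  rw [← Real.rpow_natCast, ← Real.rpow_mul hy0.le, ← Real.rpow_natCast y (m + 2),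
    ← Real.rpow_neg hy0.le]
  apply Real.rpow_le_rpow_of_exponent_le hy
  have h1 : ((m * (m + 2) : ℕ) : ℝ) ≤ (K : ℝ) := by exact_mod_cast hK.le
  push_cast at h1 ⊢
  have h2 : (m : ℝ) + 2 ≤ 1 / (m : ℝ) * K := by
    rw [one_div, ← div_eq_inv_mul, le_div_iff₀ hm0]
    linarith
  linarith

private lemma ag_deriv (m : ℕ) (r : ℝ) {y : ℝ} (hy : 0 < y) :
    HasDerivAt (ag m r) (-((m : ℝ)⁻¹ * y⁻¹ * ag m r y)) y := by
  have h := (Real.hasDerivAt_rpow_const (x := y) (p := -(1 / (m : ℝ))) (Or.inl hy.ne')).const_mul r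
  have e : -((m : ℝ)⁻¹ * y⁻¹ * ag m r y) =
      r * (-(1 / (m : ℝ)) * y ^ (-(1 / (m : ℝ)) - 1)) := by
    unfold ag
    rw [Real.rpow_sub hy, Real.rpow_one, one_div]
    ring
  rw [e]
  exact h

section

variable {m q K : ℕ} {Ψ : Mat m → ℂ} {mu : Fin m → ℂ} {lam : ℕ → ℂ} {M ε C1 r : ℝ}

private lemma M_nn (h : ThB Ψ mu M ε K) : 0 ≤ M := by
  have := h.bd0 1 one_pos
  rw [one_pow, Real.one_rpow, min_self, mul_one] at this
  exact (norm_nonneg _).trans this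

private lemma f_deriv (h : ThB Ψ mu M ε K) (hr : 0 < r) {y : ℝ} (hy : 0 < y) :
    HasDerivAt (fun y => th1 Ψ mu (ag m r y))
      ((-((m : ℝ)⁻¹ * y⁻¹ * ag m r y)) • deriv (th1 Ψ mu) (ag m r y)) y := by
  have h1 : HasDerivAt (th1 Ψ mu) (deriv (th1 Ψ mu) (ag m r y)) (ag m r y) :=
    (h.diff.differentiableAt (Ioi_mem_nhds (ag_pos hr hy))).hasDerivAt
  exact HasDerivAt.scomp y h1 (ag_deriv m r hy)

private lemma f_bd (h : ThB Ψ mu M ε K) (hr : 0 < r) {y : ℝ} (hy : 0 < y) :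
    ‖deriv (fun y => th1 Ψ mu (ag m r y)) y‖ ≤ (m : ℝ)⁻¹ * y⁻¹ * (M * min (ag m r y ^ K)
      (ag m r y ^ ((m : ℝ) ^ 2 / 2 + ε))) := by
  rw [(f_deriv h hr hy).deriv, norm_smul, Real.norm_eq_abs, abs_neg, abs_of_nonneg, mul_assoc]
  · have := h.bd1 (ag m r y) (ag_pos hr hy)
    exact mul_le_mul_of_nonneg_left this (by positivity)
  · have := ag_pos (m := m) hr hy
    positivity

private lemma c1_nn (hc : ∀ n : ℕ, 1 ≤ n → n.Coprime q →
    ‖(n : ℂ) ^ (((m : ℂ) - 1) / 2) * lam n‖ ≤ C1 * (n : ℝ) ^ m) : 0 ≤ C1 := by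
  have := hc 1 le_rfl (Nat.coprime_one_left q)
  rw [Nat.cast_one (R := ℝ), one_pow, mul_one] at this
  exact (norm_nonneg _).trans this

private lemma cf_bd (hc : ∀ n : ℕ, 1 ≤ n → n.Coprime q →
    ‖(n : ℂ) ^ (((m : ℂ) - 1) / 2) * lam n‖ ≤ C1 * (n : ℝ) ^ m) (n : ℕ) :
    ‖cf m q lam n‖ ≤ C1 * (n : ℝ) ^ m := by
  unfold cf
  by_cases h : 1 ≤ n ∧ n.Coprime q
  · rw [if_pos h]
    exact hc n h.1 h.2
  · rw [if_neg h, norm_zero]
    exact mul_nonneg (c1_nn hc) (by positivity)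

private lemma SF_bd (hc : ∀ n : ℕ, 1 ≤ n → n.Coprime q →
    ‖(n : ℂ) ^ (((m : ℂ) - 1) / 2) * lam n‖ ≤ C1 * (n : ℝ) ^ m) (N : ℕ) :
    ‖SF m q lam N‖ ≤ C1 * (N : ℝ) ^ (m + 1) := by
  have hC := c1_nn hc
  unfold SF
  rw [Nat.floor_natCast]
  refine (norm_sum_le _ _).trans ?_
  have : ∀ n ∈ Finset.Icc 1 N, ‖(if n.Coprime q then
      (n : ℂ) ^ (((m : ℂ) - 1) / 2) * lam n else 0)‖ ≤ C1 * (N : ℝ) ^ m := by
    intro n hn
    rw [Finset.mem_Icc] at hn
    have h1 : (n : ℝ) ^ m ≤ (N : ℝ) ^ m :=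
      pow_le_pow_left₀ (Nat.cast_nonneg n) (by exact_mod_cast hn.2) m
    by_cases h : n.Coprime q
    · rw [if_pos h]
      exact (hc n hn.1 h).trans (mul_le_mul_of_nonneg_left h1 hC)
    · rw [if_neg h, norm_zero]
      positivity
  refine (Finset.sum_le_card_nsmul _ _ _ this).trans (le_of_eq ?_)
  rw [Nat.card_Icc, nsmul_eq_mul, Nat.add_sub_cancel, pow_succ]
  ring

private lemma f_val (hm : 1 ≤ m) (hK : m * (m + 2) < K) (h : ThB Ψ mu M ε K) (hr : 0 < r) {y : ℝ}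
    (hy : 1 ≤ y) : ‖th1 Ψ mu (ag m r y)‖ ≤ M * r ^ K * (y ^ (m + 2))⁻¹ := by
  have hM := M_nn h
  refine (h.bd0 _ (ag_pos hr (by linarith))).trans ?_
  rw [mul_assoc]
  exact mul_le_mul_of_nonneg_left ((min_le_left _ _).trans (ag_pow hm hK hr hy)) hM

private lemma summ (hm : 1 ≤ m) (hK : m * (m + 2) < K) (h : ThB Ψ mu M ε K) (hr : 0 < r)
    (hc : ∀ n : ℕ, 1 ≤ n → n.Coprime q →
      ‖(n : ℂ) ^ (((m : ℂ) - 1) / 2) * lam n‖ ≤ C1 * (n : ℝ) ^ m) :
    Summable (fun n : ℕ => th1 Ψ mu (ag m r n) * cf m q lam n) := by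
  have hM := M_nn h
  have hC := c1_nn hc
  have hs : Summable (fun n : ℕ => C1 * M * r ^ K * ((n : ℝ) ^ 2)⁻¹) :=
    (Real.summable_nat_pow_inv.2 (by norm_num)).mul_left _
  refine Summable.of_norm_bounded hs fun n => ?_
  rcases Nat.eq_zero_or_pos n with h0 | h0
  · subst h0
    rw [cf_zero, mul_zero, norm_zero]
    positivity
  · have hn : (1 : ℝ) ≤ n := by exact_mod_cast h0
    have hn0 : (0 : ℝ) < n := by linarith
    rw [norm_mul]
    refine (mul_le_mul (f_val hm hK h hr hn) (cf_bd hc n) (norm_nonneg _) (by positivity)).trans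
      (le_of_eq ?_)
    rw [pow_add]
    field_simp

private lemma thF_eq : thF q Ψ mu lam r = ∑' n : ℕ, th1 Ψ mu (ag m r n) * cf m q lam n := by
  unfold thF
  refine tsum_congr fun n => ?_
  unfold cf ag
  by_cases h : 1 ≤ n ∧ n.Coprime q
  · rw [if_pos h, if_pos h]
    ring
  · rw [if_neg h, if_neg h, mul_zero]

end

theorem pf_ABS : T_ABS := by
  intro m q K Ψ mu lam M ε C1 hm hK h hc r hr
  have hM := M_nn h
  have hC := c1_nn hc
  have hm0 : (0 : ℝ) < m := by exact_mod_cast hm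
  obtain ⟨I, hI⟩ : ∃ I, I = ∫⁻ y in Set.Ioi (1 : ℝ), ENNReal.ofReal
    (‖SF m q lam y‖ * ((m : ℝ)⁻¹ * y⁻¹ * (M * min ((r * y ^ (-(1 / (m : ℝ)))) ^ K)
      ((r * y ^ (-(1 / (m : ℝ)))) ^ ((m : ℝ) ^ 2 / 2 + ε))))) := ⟨_, rfl⟩
  rw [← hI, thF_eq]
  -- finite sums
  have key : ∀ N : ℕ, ENNReal.ofReal ‖∑ n ∈ Finset.Icc 0 N,
      th1 Ψ mu (ag m r n) * cf m q lam n‖ ≤
      ENNReal.ofReal (‖th1 Ψ mu (ag m r N)‖ * ‖SF m q lam N‖) + I := by
    intro N
    have hi : IntegrableOn (deriv (fun y => th1 Ψ mu (ag m r y))) (Set.Icc (1 : ℝ) N) := by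
      refine Measure.integrableOn_of_bounded (M := (m : ℝ)⁻¹ * (M * r ^ K)) ?_ ?_ ?_
      · exact isCompact_Icc.measure_lt_top.ne
      · exact (measurable_deriv _).aestronglyMeasurable
      · filter_upwards [ae_restrict_mem measurableSet_Icc] with y hy
        have hy1 : 1 ≤ y := hy.1
        have hy0 : 0 < y := by linarith
        refine (f_bd h hr hy0).trans ?_
        have h1 : y⁻¹ ≤ 1 := inv_le_one_of_one_le₀ hy1
        have h2 : ag m r y ^ K ≤ r ^ K := by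
          refine (ag_pow hm hK hr hy1).trans ?_
          have : (y ^ (m + 2))⁻¹ ≤ 1 := inv_le_one_of_one_le₀ (one_le_pow₀ hy1)
          calc r ^ K * (y ^ (m + 2))⁻¹ ≤ r ^ K * 1 :=
                mul_le_mul_of_nonneg_left this (by positivity)
            _ = r ^ K := mul_one _
        have h3 : 0 ≤ min (ag m r y ^ K) (ag m r y ^ ((m : ℝ) ^ 2 / 2 + ε)) :=
          le_min (pow_nonneg (ag_pos hr hy0).le _) (Real.rpow_nonneg (ag_pos hr hy0).le _)
        calc (m : ℝ)⁻¹ * y⁻¹ * (M * min (ag m r y ^ K) (ag m r y ^ ((m : ℝ) ^ 2 / 2 + ε))) ≤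
            (m : ℝ)⁻¹ * 1 * (M * r ^ K) := by
              refine mul_le_mul ?_ ?_ (mul_nonneg hM h3) (by positivity)
              · exact mul_le_mul_of_nonneg_left h1 (by positivity)
              · exact mul_le_mul_of_nonneg_left ((min_le_left _ _).trans h2) hM
          _ = (m : ℝ)⁻¹ * (M * r ^ K) := by ring
    have hs := sum_mul_eq_sub_integral_mul₀' (f := fun y => th1 Ψ mu (ag m r y)) (cf m q lam)
      (cf_zero m q lam) N
      (fun t ht => (f_deriv h hr (by linarith [ht.1])).differentiableAt) hi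
    have hs0 : ∑ k ∈ Finset.Icc 0 N, cf m q lam k = SF m q lam N := by
      have := sum_cf m q lam N
      rw [Nat.floor_natCast] at this
      exact this
    rw [hs, hs0]
    refine (ENNReal.ofReal_le_ofReal (norm_sub_le _ _)).trans ?_
    rw [ENNReal.ofReal_add (norm_nonneg _) (norm_nonneg _), norm_mul]
    refine add_le_add le_rfl ?_
    rw [ofReal_norm]
    refine (enorm_integral_le_lintegral_enorm _).trans ?_
    rw [hI]
    refine le_trans (setLIntegral_mono' measurableSet_Ioc ?_)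
      (lintegral_mono_set (fun y hy => hy.1))
    intro y hy
    have hy0 : 0 < y := by linarith [hy.1]
    rw [← ofReal_norm, norm_mul, sum_cf, mul_comm]
    refine ENNReal.ofReal_le_ofReal (mul_le_mul_of_nonneg_left ?_ (norm_nonneg _))
    exact f_bd h hr hy0
  have hsum := summ hm hK h hr hc
  have l1 : Filter.Tendsto (fun N : ℕ => ENNReal.ofReal ‖∑ n ∈ Finset.Icc 0 N,
      th1 Ψ mu (ag m r n) * cf m q lam n‖) Filter.atTop
      (nhds (ENNReal.ofReal ‖∑' n : ℕ, th1 Ψ mu (ag m r n) * cf m q lam n‖)) := by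
    have h1 := hsum.hasSum.tendsto_sum_nat.comp (Filter.tendsto_add_atTop_nat 1)
    have h2 : ∀ N : ℕ, Finset.range (N + 1) = Finset.Icc 0 N := by
      intro N
      ext n
      simp
    refine ENNReal.tendsto_ofReal ?_
    refine Filter.Tendsto.norm ?_
    refine h1.congr fun N => ?_
    rw [Function.comp_apply, h2]
  have l2 : Filter.Tendsto (fun N : ℕ => ENNReal.ofReal (‖th1 Ψ mu (ag m r N)‖ *
      ‖SF m q lam N‖) + I) Filter.atTop (nhds (ENNReal.ofReal 0 + I)) := by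
    refine Filter.Tendsto.add_const _ (ENNReal.tendsto_ofReal ?_)
    have h1 : Filter.Tendsto (fun N : ℕ => C1 * M * r ^ K * ((N : ℝ))⁻¹) Filter.atTop
        (nhds (C1 * M * r ^ K * 0)) :=
      (tendsto_inv_atTop_zero.comp tendsto_natCast_atTop_atTop).const_mul _
    rw [mul_zero] at h1
    refine squeeze_zero' (Filter.Eventually.of_forall fun N => by positivity) ?_ h1
    filter_upwards [Filter.eventually_ge_atTop 1] with N hN
    have hn : (1 : ℝ) ≤ N := by exact_mod_cast hN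
    have hn0 : (0 : ℝ) < N := by linarith
    refine (mul_le_mul (f_val hm hK h hr hn) (SF_bd hc N) (norm_nonneg _) (by positivity)).trans
      (le_of_eq ?_)
    rw [pow_add, pow_add]
    field_simp
  rw [ENNReal.ofReal_zero, zero_add] at l2
  exact le_of_tendsto_of_tendsto' l1 l2 key

end Pool.Agent.H36.GZ
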