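import Pool.Agent.H18.GZ.Targets3

/-!
Cut-off functions (row CUT of the board gz).
-/

namespace Pool.Agent.H36.GZ

open MeasureTheory Pool.Agent.H34.GM Pool.Agent.H34.GZ

/-- cut-off of the real line: `1` below `1`, `0` above `2` -/
private noncomputable def t1 (x : ℝ) : ℝ := max 0 (min 1 (2 - x))

/-- cut-off of the real line: `0` below `1`, `1` above `2` -/
private noncomputable def t2 (x : ℝ) : ℝ := max 0 (min 1 (x - 1))

private lemma t1_cont : Continuous t1 := by
  unfold t1
  exact continuous_const.max (continuous_const.min (continuous_const.sub continuous_id))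

private lemma t2_cont : Continuous t2 := by
  unfold t2
  exact continuous_const.max (continuous_const.min (continuous_id.sub continuous_const))

private lemma t1_bd (x : ℝ) : 0 ≤ t1 x ∧ t1 x ≤ 1 :=
  ⟨le_max_left _ _, max_le zero_le_one (min_le_left _ _)⟩

private lemma t2_bd (x : ℝ) : 0 ≤ t2 x ∧ t2 x ≤ 1 :=
  ⟨le_max_left _ _, max_le zero_le_one (min_le_left _ _)⟩

private lemma t1_one {x : ℝ} (h : x ≤ 1) : t1 x = 1 := by
  unfold t1
  rw [min_eq_left (by linarith), max_eq_right zero_le_one]

private lemma t2_one {x : ℝ} (h : 2 ≤ x) : t2 x = 1 := by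
  unfold t2
  rw [min_eq_left (by linarith), max_eq_right zero_le_one]

private lemma t1_ne {x : ℝ} (h : t1 x ≠ 0) : x < 2 := by
  by_contra hc
  push Not at hc
  exact h (max_eq_left ((min_le_right _ _).trans (by linarith)))

private lemma t2_ne {x : ℝ} (h : t2 x ≠ 0) : 1 < x := by
  by_contra hc
  push Not at hc
  exact h (max_eq_left ((min_le_right _ _).trans (by linarith)))

/-- the square of the Euclidean norm -/
private noncomputable def tr {m : ℕ} (z : Mat m) : ℝ := (z.transpose * z).trace

private lemma tr_eq {m : ℕ} (z : Mat m) : tr z = ∑ j, ∑ i, z i j ^ 2 := by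
  unfold tr
  rw [Matrix.trace]
  refine Finset.sum_congr rfl fun j _ => ?_
  rw [Matrix.diag_apply, Matrix.mul_apply]
  refine Finset.sum_congr rfl fun i _ => ?_
  rw [Matrix.transpose_apply, sq]

private lemma tr_le {m : ℕ} (z : Mat m) (i j : Fin m) : z i j ^ 2 ≤ tr z := by
  rw [tr_eq]
  refine le_trans (Finset.single_le_sum (f := fun i => z i j ^ 2) (fun _ _ => sq_nonneg _)
    (Finset.mem_univ i)) ?_
  exact Finset.single_le_sum (f := fun j => ∑ i, z i j ^ 2)
    (fun _ _ => Finset.sum_nonneg fun _ _ => sq_nonneg _) (Finset.mem_univ j)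

private lemma tr_cont {m : ℕ} : Continuous (fun z : Mat m => tr z) := by
  unfold tr
  exact (continuous_id.matrix_transpose.matrix_mul continuous_id).matrix_trace

private lemma orth' {m : ℕ} {u : Mat m} (h : u * u.transpose = 1) : u.transpose * u = 1 :=
  mul_eq_one_comm.1 h

private lemma tr_left {m : ℕ} {u : Mat m} (h : u * u.transpose = 1) (z : Mat m) :
    tr (u * z) = tr z := by
  unfold tr
  rw [Matrix.transpose_mul, Matrix.mul_assoc, ← Matrix.mul_assoc u.transpose, orth' h,
    Matrix.one_mul]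

private lemma tr_right {m : ℕ} {u : Mat m} (h : u * u.transpose = 1) (z : Mat m) :
    tr (z * u) = tr z := by
  unfold tr
  rw [Matrix.transpose_mul, Matrix.mul_assoc, Matrix.trace_mul_comm, Matrix.mul_assoc,
    Matrix.mul_assoc, h, Matrix.mul_one]

private lemma det_orth {m : ℕ} {u : Mat m} (h : u * u.transpose = 1) : |u.det| = 1 := by
  have h1 : u.det * u.det = 1 := by
    have := congrArg Matrix.det h
    rw [Matrix.det_mul, Matrix.det_transpose, Matrix.det_one] at this
    exact this
  have h2 : |u.det| * |u.det| = 1 := by rw [← abs_mul, h1, abs_one]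
  have h3 : 0 ≤ |u.det| := abs_nonneg _
  nlinarith

theorem pf_CUT : T_CUT := by
  intro m _
  refine ⟨fun j z => t1 (tr z / ((j : ℝ) + 1)) * t2 (((j : ℝ) + 1) * |z.det|), ?_, ?_, ?_⟩
  · intro j z
    have a := t1_bd (tr z / ((j : ℝ) + 1))
    have b := t2_bd (((j : ℝ) + 1) * |z.det|)
    exact ⟨mul_nonneg a.1 b.1, mul_le_one₀ a.2 b.1 b.2⟩
  · intro z hz
    have hd : 0 < |z.det| := abs_pos.2 hz
    obtain ⟨N1, hN1⟩ := exists_nat_ge (tr z)
    obtain ⟨N2, hN2⟩ := exists_nat_ge (2 / |z.det|)
    refine tendsto_const_nhds.congr' ?_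
    rw [Filter.EventuallyEq, Filter.eventually_atTop]
    refine ⟨max N1 N2, fun j hj => ?_⟩
    have h1 : (N1 : ℝ) ≤ j := by exact_mod_cast (le_max_left _ _).trans hj
    have h2 : (N2 : ℝ) ≤ j := by exact_mod_cast (le_max_right _ _).trans hj
    have hj0 : (0 : ℝ) < (j : ℝ) + 1 := by positivity
    show 1 = t1 (tr z / ((j : ℝ) + 1)) * t2 (((j : ℝ) + 1) * |z.det|)
    rw [t1_one, t2_one, mul_one]
    · rw [div_le_iff₀ hd] at hN2
      have := mul_le_mul_of_nonneg_right h2 hd.le
      nlinarith
    · rw [div_le_one hj0]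
      linarith
  · intro Ψ hΨ j
    have hj0 : (0 : ℝ) < (j : ℝ) + 1 := by positivity
    refine ⟨?_, ⟨2 * ((j : ℝ) + 1), by positivity, ?_⟩, ?_, ?_⟩
    · refine (Complex.continuous_ofReal.comp ?_).mul hΨ.cont
      refine (t1_cont.comp (tr_cont.div_const _)).mul (t2_cont.comp ?_)
      exact continuous_const.mul (continuous_id.matrix_det.abs)
    · intro z hz
      have hz' : ((t1 (tr z / ((j : ℝ) + 1)) * t2 (((j : ℝ) + 1) * |z.det|) : ℝ) : ℂ) * Ψ z ≠ 0 :=
        hz
      have hz2 : t1 (tr z / ((j : ℝ) + 1)) * t2 (((j : ℝ) + 1) * |z.det|) ≠ 0 := by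
        intro h
        rw [h, Complex.ofReal_zero, zero_mul] at hz'
        exact hz' rfl
      have h1 : t1 (tr z / ((j : ℝ) + 1)) ≠ 0 := left_ne_zero_of_mul hz2
      have h2 : t2 (((j : ℝ) + 1) * |z.det|) ≠ 0 := right_ne_zero_of_mul hz2
      have h3 := t1_ne h1
      have h4 := t2_ne h2
      rw [div_lt_iff₀ hj0] at h3
      constructor
      · unfold sz
        rw [pi_norm_le_iff_of_nonneg (by positivity)]
        intro i
        rw [pi_norm_le_iff_of_nonneg (by positivity)]
        intro l
        rw [Real.norm_eq_abs]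
        refine abs_le_of_sq_le_sq ?_ (by positivity)
        refine (tr_le z i l).trans (h3.le.trans ?_)
        have : (1 : ℝ) ≤ (j : ℝ) + 1 := by linarith [(Nat.cast_nonneg j : (0 : ℝ) ≤ j)]
        nlinarith
      · rw [inv_le_iff_one_le_mul₀ (by positivity)]
        have : 0 ≤ |z.det| * ((j : ℝ) + 1) := by positivity
        nlinarith
    · intro u hu z
      simp only [tr_left hu, Matrix.det_mul, abs_mul, det_orth hu, one_mul, hΨ.left u hu]
    · intro u hu z
      simp only [tr_right hu, Matrix.det_mul, abs_mul, det_orth hu, mul_one, hΨ.right u hu]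

end Pool.Agent.H36.GZ
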