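import Pool.Agent.H34.GZ.Targets1

/-!
The Siegel lengths are the Gram-Schmidt lengths; measurability of the Siegel set.
-/

namespace Pool.Agent.H36.GZ

open MeasureTheory Pool.Agent.H34.GM Pool.Agent.H34.GZ

private lemma sum_castLE {j m : ℕ} (h : j ≤ m) (f : Fin m → ℝ)
    (hf : ∀ t : Fin m, j ≤ (t : ℕ) → f t = 0) :
    ∑ t : Fin m, f t = ∑ t : Fin j, f (Fin.castLE h t) := by
  have e : ∑ t : Fin j, f (Fin.castLE h t) =
      ∑ t ∈ (Finset.univ : Finset (Fin j)).map (Fin.castLEEmb h), f t := by
    rw [Finset.sum_map]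
    rfl
  rw [e]
  symm
  refine Finset.sum_subset (Finset.subset_univ _) ?_
  intro t _ ht
  refine hf t ?_
  by_contra hc
  push Not at hc
  refine ht ?_
  rw [Finset.mem_map]
  exact ⟨⟨t, hc⟩, Finset.mem_univ _, by ext; rfl⟩

private lemma det_unip {j : ℕ} (A : Mat j) (h1 : ∀ i, A i i = 1) (h0 : ∀ i l, i < l → A i l = 0) :
    A.det = 1 := by
  have hl : A.BlockTriangular OrderDual.toDual := by
    intro i l hil
    exact h0 i l hil
  rw [Matrix.det_of_lowerTriangular A hl]
  simp [h1]

private lemma gram {m : ℕ} {z n : Mat m} {a : Fin m → ℝ} {k : Mat m} (hs : Sgl z n a k)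
    (i l : Fin m) : (z * z.transpose) i l = ∑ t, n i t * a t ^ 2 * n l t := by
  have e : z * z.transpose =
      (n * Matrix.diagonal a) * (n * Matrix.diagonal a).transpose := by
    rw [hs.eq, Matrix.transpose_mul, Matrix.mul_assoc, ← Matrix.mul_assoc k, hs.orth,
      Matrix.one_mul]
  rw [e, Matrix.mul_apply]
  refine Finset.sum_congr rfl fun t _ => ?_
  rw [Matrix.transpose_apply, Matrix.mul_diagonal, Matrix.mul_diagonal]
  ring

private lemma mnr_sgl {m : ℕ} {z n : Mat m} {a : Fin m → ℝ} {k : Mat m} (hs : Sgl z n a k)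
    (j : ℕ) (h : j ≤ m) : mnr z.transpose j = ∏ t : Fin j, a (Fin.castLE h t) ^ 2 := by
  unfold mnr
  rw [dif_pos h, Matrix.transpose_transpose]
  have e : (z * z.transpose).submatrix (Fin.castLE h) (Fin.castLE h) =
      (n.submatrix (Fin.castLE h) (Fin.castLE h)) *
        Matrix.diagonal (fun t : Fin j => a (Fin.castLE h t) ^ 2) *
        (n.submatrix (Fin.castLE h) (Fin.castLE h)).transpose := by
    ext i l
    rw [Matrix.submatrix_apply, gram hs, sum_castLE h, Matrix.mul_apply]
    · refine Finset.sum_congr rfl fun t _ => ?_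
      rw [Matrix.mul_diagonal, Matrix.transpose_apply, Matrix.submatrix_apply,
        Matrix.submatrix_apply]
    · intro t ht
      have : n (Fin.castLE h i) t = 0 := by
        refine hs.up _ _ ?_
        rw [Fin.lt_def, Fin.val_castLE]
        exact lt_of_lt_of_le i.2 ht
      rw [this, zero_mul, zero_mul]
  rw [e, Matrix.det_mul, Matrix.det_mul, Matrix.det_transpose, Matrix.det_diagonal,
    det_unip (n.submatrix (Fin.castLE h) (Fin.castLE h)), one_mul, mul_one]
  · intro i
    exact hs.one _
  · intro i l hil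
    exact hs.up _ _ (by rw [Fin.lt_def] at hil ⊢; exact hil)

private lemma gs_sgl {m : ℕ} {z n : Mat m} {a : Fin m → ℝ} {k : Mat m} (hs : Sgl z n a k) :
    a = gs z := by
  ext i
  unfold gs
  rw [mnr_sgl hs ((i : ℕ) + 1) i.2, mnr_sgl hs (i : ℕ) i.2.le, Fin.prod_univ_castSucc]
  have e1 : ∀ t : Fin (i : ℕ), a (Fin.castLE i.2 (Fin.castSucc t)) = a (Fin.castLE i.2.le t) := by
    intro t
    rfl
  have e2 : a (Fin.castLE i.2 (Fin.last (i : ℕ))) = a i := by
    congr 1
  have hp : (0 : ℝ) < ∏ t : Fin (i : ℕ), a (Fin.castLE i.2.le t) ^ 2 :=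
    Finset.prod_pos fun t _ => pow_pos (hs.pos _) 2
  rw [e2]
  have e3 : ∏ t : Fin (i : ℕ), a (Fin.castLE i.2 (Fin.castSucc t)) ^ 2 =
      ∏ t : Fin (i : ℕ), a (Fin.castLE i.2.le t) ^ 2 :=
    Finset.prod_congr rfl fun t _ => by rw [e1 t]
  rw [e3, mul_div_assoc, mul_div_assoc', mul_div_cancel_left₀ _ hp.ne', Real.sqrt_sq (hs.pos i).le]

private lemma cont_mnr (m j : ℕ) : Continuous (fun z : V m => mnr (mt z).transpose j) := by
  unfold mnr
  by_cases h : j ≤ m
  · simp only [dif_pos h]
    refine Continuous.matrix_det ?_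
    refine Continuous.matrix_submatrix ?_ _ _
    have hc : Continuous (fun z : V m => mt z) := continuous_id
    exact (hc.matrix_transpose.matrix_transpose).matrix_mul hc.matrix_transpose
  · simp only [dif_neg h]
    exact continuous_const

private lemma meas_gs (m : ℕ) : Measurable (fun z : V m => gs (mt z)) := by
  rw [measurable_pi_iff]
  intro i
  exact (((cont_mnr m _).measurable).div ((cont_mnr m _).measurable)).sqrt

/-- the compact set of the Siegel data -/
private def KN (m N : ℕ) : Set (V m × (Fin m → ℝ) × V m) :=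
  {p | (∀ i, p.1 i i = 1) ∧ (∀ i j, i < j → p.1 i j = 0) ∧ (∀ i j, j < i → |p.1 i j| ≤ 1 / 2) ∧
    (∀ i, (1 : ℝ) / (N + 1) ≤ p.2.1 i) ∧ (∀ i, p.2.1 i ≤ (N + 1 : ℝ)) ∧
    (∀ i j, i ≤ j → p.2.1 i ≤ 2 ^ m * p.2.1 j) ∧ mt p.2.2 * (mt p.2.2).transpose = 1}

private lemma closed_KN (m N : ℕ) : IsClosed (KN m N) := by
  unfold KN
  have c1 : Continuous (fun p : V m × (Fin m → ℝ) × V m => p.1) := continuous_fst
  have c2 : Continuous (fun p : V m × (Fin m → ℝ) × V m => p.2.1) :=
    continuous_fst.comp continuous_snd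
  have c3 : Continuous (fun p : V m × (Fin m → ℝ) × V m => p.2.2) :=
    continuous_snd.comp continuous_snd
  have d1 : ∀ i j, Continuous (fun p : V m × (Fin m → ℝ) × V m => p.1 i j) := fun i j =>
    (continuous_apply j).comp ((continuous_apply i).comp c1)
  have d2 : ∀ i, Continuous (fun p : V m × (Fin m → ℝ) × V m => p.2.1 i) := fun i =>
    (continuous_apply i).comp c2
  have d3 : Continuous (fun p : V m × (Fin m → ℝ) × V m => mt p.2.2) := c3
  refine IsClosed.and ?_ (IsClosed.and ?_ (IsClosed.and ?_ (IsClosed.and ?_ (IsClosed.and ?_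
    (IsClosed.and ?_ ?_)))))
  · simp only [Set.ofPred_forall]
    exact isClosed_iInter fun i => isClosed_eq (d1 i i) continuous_const
  · simp only [Set.ofPred_forall]
    exact isClosed_iInter fun i => isClosed_iInter fun j => isClosed_iInter fun _ =>
      isClosed_eq (d1 i j) continuous_const
  · simp only [Set.ofPred_forall]
    exact isClosed_iInter fun i => isClosed_iInter fun j => isClosed_iInter fun _ =>
      isClosed_le (d1 i j).abs continuous_const
  · simp only [Set.ofPred_forall]
    exact isClosed_iInter fun i => isClosed_le continuous_const (d2 i)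
  · simp only [Set.ofPred_forall]
    exact isClosed_iInter fun i => isClosed_le (d2 i) continuous_const
  · simp only [Set.ofPred_forall]
    exact isClosed_iInter fun i => isClosed_iInter fun j => isClosed_iInter fun _ =>
      isClosed_le (d2 i) (continuous_const.mul (d2 j))
  · exact isClosed_eq (d3.matrix_mul d3.matrix_transpose) continuous_const

private lemma orth_le {m : ℕ} {k : Mat m} (h : k * k.transpose = 1) (i j : Fin m) : |k i j| ≤ 1 := by
  have h1 : (k * k.transpose) i i = 1 := by rw [h, Matrix.one_apply_eq]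
  rw [Matrix.mul_apply] at h1
  have h2 : k i j * k.transpose j i ≤ ∑ t, k i t * k.transpose t i :=
    Finset.single_le_sum (f := fun t => k i t * k.transpose t i)
      (fun t _ => by rw [Matrix.transpose_apply]; exact mul_self_nonneg _) (Finset.mem_univ j)
  rw [h1, Matrix.transpose_apply] at h2
  rw [abs_le]
  constructor <;> nlinarith

private lemma comp_KN (m N : ℕ) : IsCompact (KN m N) := by
  refine IsCompact.of_isClosed_subset
    (isCompact_Icc (a := ((fun _ _ => -1 : V m), (fun _ => 0 : Fin m → ℝ), (fun _ _ => -1 : V m)))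
      (b := ((fun _ _ => 1 : V m), (fun _ => (N : ℝ) + 1 : Fin m → ℝ), (fun _ _ => 1 : V m))))
    (closed_KN m N) ?_
  rintro ⟨n, a, k⟩ ⟨h1, h2, h3, h4, h5, h6, h7⟩
  have hn : ∀ i j, |n i j| ≤ 1 := by
    intro i j
    rcases lt_trichotomy i j with h | h | h
    · have := h2 i j h
      simp only at this
      rw [this, abs_zero]
      exact zero_le_one
    · subst h
      have := h1 i
      simp only at this
      rw [this, abs_one]
    · exact (h3 i j h).trans (by norm_num)
  have hk : ∀ i j, |k i j| ≤ 1 := fun i j => orth_le h7 i j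
  have hN : (0 : ℝ) ≤ 1 / ((N : ℝ) + 1) := by positivity
  refine ⟨⟨?_, ?_, ?_⟩, ⟨?_, ?_, ?_⟩⟩
  · intro i j
    exact (abs_le.1 (hn i j)).1
  · intro i
    exact hN.trans (h4 i)
  · intro i j
    exact (abs_le.1 (hk i j)).1
  · intro i j
    exact (abs_le.1 (hn i j)).2
  · intro i
    exact h5 i
  · intro i j
    exact (abs_le.1 (hk i j)).2

/-- the product -/
private def ph (m : ℕ) (p : V m × (Fin m → ℝ) × V m) : V m :=
  fun i j => (mt p.1 * Matrix.diagonal p.2.1 * mt p.2.2) i j

private lemma cont_ph (m : ℕ) : Continuous (ph m) := by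
  unfold ph
  have c1 : Continuous (fun p : V m × (Fin m → ℝ) × V m => mt p.1) := continuous_fst
  have c2 : Continuous (fun p : V m × (Fin m → ℝ) × V m => p.2.1) :=
    continuous_fst.comp continuous_snd
  have c3 : Continuous (fun p : V m × (Fin m → ℝ) × V m => mt p.2.2) :=
    continuous_snd.comp continuous_snd
  have c := (c1.matrix_mul c2.matrix_diagonal).matrix_mul c3
  exact c

theorem pf_GSU : T_CNT → T_GSU := by
  intro _
  refine ⟨fun m z n a k hs => gs_sgl hs, meas_gs, fun m => ?_⟩
  have e : {z : V m | ∃ n k : Mat m, Sgl (mt z) n (gs (mt z)) k} = ⋃ N : ℕ, ph m '' KN m N := by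
    ext z
    rw [Set.mem_iUnion]
    constructor
    · rintro ⟨n, k, hs⟩
      obtain ⟨a, ha⟩ : ∃ a, a = gs (mt z) := ⟨_, rfl⟩
      rw [← ha] at hs
      have hb : ∀ i, ∃ N : ℕ, a i ≤ N ∧ (a i)⁻¹ ≤ N := by
        intro i
        obtain ⟨N, hN⟩ := exists_nat_ge (max (a i) (a i)⁻¹)
        exact ⟨N, (le_max_left _ _).trans hN, (le_max_right _ _).trans hN⟩
      choose M hM using hb
      refine ⟨∑ i, M i, (fun i j => n i j, a, fun i j => k i j), ?_, ?_⟩
      · have hMi : ∀ i, (M i : ℝ) ≤ ((∑ i, M i : ℕ) : ℝ) := by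
          intro i
          exact_mod_cast Finset.single_le_sum (f := M) (fun _ _ => Nat.zero_le _)
            (Finset.mem_univ i)
        refine ⟨hs.one, hs.up, hs.lo, ?_, ?_, hs.ord, hs.orth⟩
        · intro i
          have hp := hs.pos i
          have h1 : (a i)⁻¹ ≤ ((∑ i, M i : ℕ) : ℝ) + 1 := by
            have := (hM i).2
            have := hMi i
            linarith
          rw [one_div]
          exact inv_le_of_inv_le₀ hp h1
        · intro i
          have := (hM i).1
          have := hMi i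
          show a i ≤ _
          linarith
      · ext i j
        have : mt z i j = (n * Matrix.diagonal a * k) i j := by rw [hs.eq]
        exact this.symm
    · rintro ⟨N, ⟨n, a, k⟩, ⟨h1, h2, h3, h4, h5, h6, h7⟩, rfl⟩
      have hs : Sgl (mt (ph m (n, a, k))) (mt n) a (mt k) := by
        refine ⟨?_, h7, ?_, h1, h2, h3, h6⟩
        · ext i j
          rfl
        · intro i
          exact lt_of_lt_of_le (by positivity) (h4 i)
      refine ⟨mt n, mt k, ?_⟩
      rw [← gs_sgl hs]
      exact hs
  rw [e]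
  exact MeasurableSet.iUnion fun N => ((comp_KN m N).image (cont_ph m)).isClosed.measurableSet

end Pool.Agent.H36.GZ
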